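import Pool.Agent.Helper73.RS.St

/-! # RS MODULE RDI: multiples of recurrent sets are recurrent -/

set_option autoImplicit false

namespace Pool.Agent.Helper18.RS

open Pool.Agent.Helper73.RS
open Filter Topology

theorem holds_RDI : Pool.Agent.Helper73.RS.StRDI := by
  intro hLDI hLRS n U hn hR B hB
  obtain ⟨j, -, hj⟩ := hLRS n B hn hB
  obtain ⟨x0, hx0, hV⟩ := hR _ hj
  refine ⟨n * x0, hx0, (hLDI n j _ hn hV).mono ?_⟩
  rintro _ ⟨y, ⟨h1, h2⟩, rfl⟩
  refine ⟨h1, ?_⟩
  have h3 : n * (y + x0) + j ∈ B := h2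
  have e : n * y + j + n * x0 = n * (y + x0) + j := by ring
  rw [e]
  exact h3

end Pool.Agent.Helper18.RS
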